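import Pool.Agent.U74.LQ.Quot

/-!
# Quotients of linear groups by virtually solvable normal subgroups
-/

set_option autoImplicit false

namespace Pool.Agent.U74.LQ

open Subgroup
open scoped commutatorElement
open Pool.Agent.Y110.FJ
open Pool.Agent.R941.FJ (C_equiv C_le C_cyc mem_sup_normal)

/-- the product of two solvable normal subgroups -/
theorem sup_solv {R : Type} [Group R] (S S' : Subgroup R) (hS : S.Normal) (h : Group.IsSolvable S)
    (h' : Group.IsSolvable S') : Group.IsSolvable (S ⊔ S' : Subgroup R) := by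
  rw [Group.isSolvable_iff_subgroup_quotient (S.subgroupOf (S ⊔ S'))]
  constructor
  · exact Group.isSolvable_of_isSolvable_injective
      (f := (Subgroup.subgroupOfEquivOfLe (le_sup_left : S ≤ S ⊔ S')).toMonoidHom)
      (Subgroup.subgroupOfEquivOfLe (le_sup_left : S ≤ S ⊔ S')).injective
  · refine Group.isSolvable_of_surjective
      (f := (QuotientGroup.mk' (S.subgroupOf (S ⊔ S'))).comp (Subgroup.inclusion (le_sup_right : S' ≤ S ⊔ S'))) ?_
    intro q
    obtain ⟨⟨x, hx⟩, rfl⟩ := QuotientGroup.mk_surjective q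
    obtain ⟨y, z, hy, hz, rfl⟩ : ∃ y z, y ∈ S' ∧ z ∈ S ∧ y * z = x := by
      have hx' := hx
      rw [sup_comm] at hx'
      obtain ⟨y, hy, z, hz, rfl⟩ := Subgroup.mem_sup_of_normal_right.1 hx'
      exact ⟨y, z, hy, hz, rfl⟩
    refine ⟨⟨y, hy⟩, ?_⟩
    show (QuotientGroup.mk (⟨y, _⟩ : (S ⊔ S' : Subgroup R)) : _ ⧸ S.subgroupOf (S ⊔ S')) = _
    rw [QuotientGroup.eq, Subgroup.mem_subgroupOf]
    show y⁻¹ * (y * z) ∈ S
    rwa [inv_mul_cancel_left]

/-- the solvable radical of a virtually solvable normal subgroup -/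
theorem exists_rad {N : Type} [Group N] (R : Subgroup N) (hR : R.Normal) (S0 : Subgroup N)
    (hS0 : Group.IsSolvable S0) (hfin : S0.relIndex R ≠ 0) :
    ∃ S : Subgroup N, S.Normal ∧ S ≤ R ∧ Group.IsSolvable S ∧ S.relIndex R ≠ 0 := by
  classical
  -- normal solvable subgroups of `R` of finite index
  obtain ⟨P, hP⟩ : ∃ P : ℕ → Prop, P = fun k => k ≠ 0 ∧ ∃ S : Subgroup R, S.Normal ∧ Group.IsSolvable S ∧
      S.index = k := ⟨_, rfl⟩
  have hex : ∃ k, P k := by
    rw [hP]
    have h1 : (S0.subgroupOf R).FiniteIndex := ⟨hfin⟩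
    refine ⟨(S0.subgroupOf R).normalCore.index, ?_, (S0.subgroupOf R).normalCore, inferInstance, ?_, rfl⟩
    · exact (inferInstance : (S0.subgroupOf R).normalCore.FiniteIndex).index_ne_zero
    · let f : (S0.subgroupOf R).normalCore →* S0 :=
        (R.subtype.comp (Subgroup.subtype _)).codRestrict S0 fun x =>
          Subgroup.mem_subgroupOf.1 (Subgroup.normalCore_le (S0.subgroupOf R) x.2)
      refine Group.isSolvable_of_isSolvable_injective (f := f) ?_
      intro x y hxy
      exact Subtype.ext (Subtype.ext (congrArg (fun z : S0 => (z : N)) hxy))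
  obtain ⟨k, hk, hmin⟩ : ∃ k, P k ∧ ∀ j, P j → k ≤ j :=
    ⟨Nat.find hex, Nat.find_spec hex, fun j hj => Nat.find_min' hex hj⟩
  rw [hP] at hk hmin
  obtain ⟨hk0, S, hSn, hSs, hSk⟩ := hk
  have hmax : ∀ S' : Subgroup R, S'.Normal → Group.IsSolvable S' → S' ≤ S := by
    intro S' hn' hs'
    have h1 : (S ⊔ S').Normal := inferInstance
    have h2 := sup_solv S S' hSn hSs hs'
    have h3 : S.relIndex (S ⊔ S') * (S ⊔ S').index = S.index := Subgroup.relIndex_mul_index le_sup_left
    have h4 : (S ⊔ S').index ≠ 0 := by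
      intro h0
      rw [h0, mul_zero] at h3
      omega
    have h5 := hmin _ ⟨h4, _, h1, h2, rfl⟩
    rw [hSk] at h3
    have h6 : S.relIndex (S ⊔ S') = 1 := by
      have h7 : S.relIndex (S ⊔ S') ≠ 0 := by
        intro h0
        rw [h0, zero_mul] at h3
        omega
      by_contra hne
      have h8 : 2 ≤ S.relIndex (S ⊔ S') := by omega
      have h9 : 2 * (S ⊔ S').index ≤ k := by
        rw [← h3]
        exact Nat.mul_le_mul_right _ h8
      omega
    rw [Subgroup.relIndex_eq_one] at h6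
    exact le_sup_right.trans h6
  refine ⟨S.map R.subtype, ⟨?_⟩, ?_, ?_, ?_⟩
  · rintro _ ⟨x, hx, rfl⟩ g
    let e : R ≃* R :=
      { toFun := fun y => ⟨g * y * g⁻¹, hR.conj_mem y y.2 g⟩
        invFun := fun y => ⟨g⁻¹ * y * g, by
          have := hR.conj_mem y y.2 g⁻¹
          rwa [inv_inv] at this⟩
        left_inv := fun y => Subtype.ext (by simp [mul_assoc])
        right_inv := fun y => Subtype.ext (by simp [mul_assoc])
        map_mul' := fun y z => Subtype.ext (by simp [mul_assoc]) }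
    have h1 : (S.map e.toMonoidHom).Normal := hSn.map e.toMonoidHom e.surjective
    have h2 : Group.IsSolvable (S.map e.toMonoidHom) :=
      Group.isSolvable_of_surjective (f := e.toMonoidHom.subgroupMap S) (MonoidHom.subgroupMap_surjective _ S)
    have h3 := hmax _ h1 h2 ⟨x, hx, rfl⟩
    exact ⟨e x, h3, rfl⟩
  · rintro _ ⟨x, -, rfl⟩
    exact x.2
  · exact Group.isSolvable_of_surjective (f := R.subtype.subgroupMap S) (MonoidHom.subgroupMap_surjective _ S)
  · rw [Subgroup.relIndex]
    have h1 : (S.map R.subtype).subgroupOf R = S := by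
      rw [← Subgroup.comap_subtype, Subgroup.comap_map_eq_self_of_injective R.subtype_injective]
    rw [h1, hSk]
    exact hk0

variable {C : ∀ (G : Type) [Group G], Prop} {F : Type} [Field F]

/-- **quotients of linear groups by virtually solvable normal subgroups** -/
theorem lin_vsolv (hC : ClosedE C) (hM : ∀ (G : Type) [Group G], derivedSeries G 2 = ⊥ → C G)
    (hL : ∀ n : ℕ, C (Matrix.GeneralLinearGroup (Fin n) F)) {n : ℕ} {N : Type} [Group N]
    (ρ : N →* Matrix.GeneralLinearGroup (Fin n) F) (hρ : Function.Injective ρ) (R : Subgroup N)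
    (hR : R.Normal) (S0 : Subgroup N) (hS0 : Group.IsSolvable S0) (hfin : S0.relIndex R ≠ 0) :
    C (N ⧸ R) := by
  obtain ⟨S, hSn, hSR, hSs, hSf⟩ := exists_rad R hR S0 hS0 hfin
  -- the action on `R ⧸ S`
  obtain ⟨Q, hQ⟩ : ∃ Q : Subgroup R, Q = S.subgroupOf R := ⟨_, rfl⟩
  have hQn : Q.Normal := by
    rw [hQ]
    exact hSn.subgroupOf R
  have hQf : Finite (R ⧸ Q) := by
    rw [hQ]
    exact Subgroup.index_ne_zero_iff_finite.1 hSf
  have hmQ : ∀ x : R, x ∈ Q ↔ (x : N) ∈ S := fun x => by rw [hQ, Subgroup.mem_subgroupOf]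
  let a : N → R ⧸ Q → R ⧸ Q := fun g => Quotient.map' (fun y => ⟨g * y * g⁻¹, hR.conj_mem y y.2 g⟩) (by
    intro x y hxy
    rw [QuotientGroup.leftRel_apply, hmQ] at hxy ⊢
    have h1 := hSn.conj_mem _ hxy g
    have h2 : g * ((x⁻¹ * y : R) : N) * g⁻¹ = (g * x * g⁻¹)⁻¹ * (g * y * g⁻¹) := by
      push_cast
      group
    rw [h2] at h1
    exact h1)
  have ha : ∀ (g : N) (x : R), a g (QuotientGroup.mk x) = QuotientGroup.mk ⟨g * x * g⁻¹, hR.conj_mem x x.2 g⟩ :=
    fun _ _ => rfl
  have hamul : ∀ g h q, a (g * h) q = a g (a h q) := by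
    intro g h q
    obtain ⟨x, rfl⟩ := QuotientGroup.mk_surjective q
    rw [ha, ha, ha]
    congr 1
    exact Subtype.ext (by simp [mul_assoc])
  have haone : ∀ q, a 1 q = q := by
    intro q
    obtain ⟨x, rfl⟩ := QuotientGroup.mk_surjective q
    rw [ha]
    congr 1
    exact Subtype.ext (by simp)
  let act : MulAction N (R ⧸ Q) := { smul := a, one_smul := haone, mul_smul := hamul }
  obtain ⟨M, hM'⟩ : ∃ M : Subgroup N, M = (MulAction.toPermHom N (R ⧸ Q)).ker := ⟨_, rfl⟩
  have hMi : M.index ≠ 0 := by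
    rw [hM', Subgroup.index_ker]
    exact Nat.card_pos.ne'
  have hMr : ∀ g ∈ M, ∀ x : R, (x : N)⁻¹ * (g * x * g⁻¹) ∈ S := by
    intro g hg x
    rw [hM', MonoidHom.mem_ker] at hg
    have h1 : a g (QuotientGroup.mk x) = QuotientGroup.mk x := congrArg (fun e : Equiv.Perm (R ⧸ Q) => e x) hg
    rw [ha, eq_comm, QuotientGroup.eq, hmQ] at h1
    exact h1
  -- `M ∩ R` is solvable
  obtain ⟨K, hK⟩ : ∃ K : Subgroup M, K = R.subgroupOf M := ⟨_, rfl⟩
  have hKn : K.Normal := by
    rw [hK]
    exact hR.subgroupOf M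
  have hmK : ∀ x : M, x ∈ K ↔ (x : N) ∈ R := fun x => by rw [hK, Subgroup.mem_subgroupOf]
  have hKs : Group.IsSolvable K := by
    let f : K →* N := M.subtype.comp K.subtype
    have hf : Function.Injective f := M.subtype_injective.comp K.subtype_injective
    have h1 : (S.comap f).Normal := hSn.comap f
    rw [Group.isSolvable_iff_subgroup_quotient (S.comap f)]
    constructor
    · let j : S.comap f →* S := (f.comp (S.comap f).subtype).codRestrict S fun x => x.2
      refine Group.isSolvable_of_isSolvable_injective (f := j) ?_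
      intro x y hxy
      exact Subtype.ext (hf (congrArg (fun z : S => (z : N)) hxy))
    · refine Group.isSolvable_of_comm fun x y => ?_
      obtain ⟨x, rfl⟩ := QuotientGroup.mk_surjective x
      obtain ⟨y, rfl⟩ := QuotientGroup.mk_surjective y
      show (QuotientGroup.mk (x * y) : K ⧸ S.comap f) = QuotientGroup.mk (y * x)
      rw [QuotientGroup.eq]
      show ((x * y)⁻¹ * (y * x) : K) ∈ S.comap f
      rw [Subgroup.mem_comap]
      have h2 := hMr (y : M) (y : M).2 ⟨((x : M) : N), (hmK _).1 x.2⟩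
      have h3 := hSn.conj_mem _ h2 (f y)⁻¹
      have h4 : f ((x * y)⁻¹ * (y * x)) = (f y)⁻¹ * ((f x)⁻¹ * (f y * f x * (f y)⁻¹)) * (f y)⁻¹⁻¹ := by
        rw [map_mul, map_inv, map_mul, map_mul]
        group
      rw [h4]
      exact h3
  obtain ⟨d, hd⟩ := hKs.solvable
  have hq := lin_solv hC hM hL d n M (ρ.comp M.subtype) (hρ.comp M.subtype_injective) K hKn
    (by rw [hd, Subgroup.map_bot])
  -- the image of `M` in `N ⧸ R`
  have hmap : C (M.map (QuotientGroup.mk' R)) := by
    let f : M ⧸ K →* N ⧸ R := QuotientGroup.map K R M.subtype (fun x hx => (hmK x).1 hx)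
    have hf : Function.Injective f := by
      rw [injective_iff_map_eq_one]
      intro x hx
      obtain ⟨x, rfl⟩ := QuotientGroup.mk_surjective x
      have h1 : (QuotientGroup.mk (x : N) : N ⧸ R) = 1 := hx
      rw [QuotientGroup.eq_one_iff] at h1
      exact (QuotientGroup.eq_one_iff _).2 ((hmK x).2 h1)
    have hr : f.range = M.map (QuotientGroup.mk' R) := by
      ext y
      constructor
      · rintro ⟨x, rfl⟩
        obtain ⟨x, rfl⟩ := QuotientGroup.mk_surjective x
        exact ⟨x, x.2, rfl⟩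
      · rintro ⟨x, hx, rfl⟩
        exact ⟨QuotientGroup.mk ⟨x, hx⟩, rfl⟩
    rw [← hr]
    exact C_equiv hC.base (MonoidHom.ofInjective hf).symm hq
  refine hC.base.finiteIndex _ (M.map (QuotientGroup.mk' R)) ⟨?_⟩ hmap
  intro h0
  have h1 := Subgroup.index_map_dvd (H := M) (QuotientGroup.mk'_surjective R)
  rw [h0] at h1
  exact hMi (Nat.eq_zero_of_zero_dvd h1)

end Pool.Agent.U74.LQ
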