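import Pool.Agent.U74.LQ.Main
import Pool.Agent.U74.LQ.VSolv

/-!
# Congruence subgroups as vertex groups
-/

set_option autoImplicit false

namespace Pool.Agent.U74.LQ

open Subgroup
open Subgroup.Commensurable (commensurator)
open Pool.Agent.Y110.FJ
open Pool.Agent.N509.TX (AcylF)
open Pool.Agent.N431.CE (Es mem_Es Es_comm Es_smul)
open Pool.Agent.U385.FJ
open Pool.Agent.Helper270.Tree (TreeAct IsAxis IsLine)

variable {C : ∀ (G : Type) [Group G], Prop}
variable {G V : Type} [Group G] [MulAction G V] {T : SimpleGraph V}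

/-- stabilizers with unique roots -/
theorem stab_ur {v : V} (h : Cong C (MulAction.stabilizer G v)) : UR (MulAction.stabilizer G v) := by
  intro x hx y hy m hm hxy
  have := h.roots ⟨x, hx⟩ ⟨y, hy⟩ m hm (Subtype.ext hxy)
  exact congrArg Subtype.val this

theorem cong_main (hC : ClosedE C) (hM : ∀ (G : Type) [Group G], derivedSeries G 2 = ⊥ → C G)
    (hA : AcylF C) (hT : T.IsTree) (hact : ∀ (g : G) (u v : V), T.Adj u v → T.Adj (g • u) (g • v))
    (hV : ∀ v : V, Cong C (MulAction.stabilizer G v))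
    (hN : ∀ v u : V, T.Adj v u → Group.IsNilpotent (Es G v u))
    (hint : ∀ v a b, T.Adj v a → T.Adj v b → a ≠ b → Commensurable (Es G v a) (Es G v b) ∨
      (IsCyclic (Es G v a) ∧ IsCyclic (Es G v b)) ∨ Es G v a ⊓ Es G v b = ⊥) : C G := by
  have htriv : ∀ v u : V, ¬ Infinite (Es G v u) → Es G v u = ⊥ := by
    intro v u h
    have hf : Finite (Es G v u) := not_infinite_iff_finite.1 h
    rw [eq_bot_iff]
    intro x hx
    have h1 : IsOfFinOrder (⟨x, hx⟩ : Es G v u) := isOfFinOrder_of_finite _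
    rw [isOfFinOrder_iff_pow_eq_one] at h1
    obtain ⟨m, hm, h2⟩ := h1
    have h3 : x ^ m = 1 := congrArg Subtype.val h2
    exact stab_ur (hV v) x hx.1 1 (one_mem _) m hm.ne' (by rw [h3, one_pow])
  refine lin_main hC hM hA hT hact (fun v => (hV v).lin) (fun v u h _ => hN v u h)
    (fun v u _ _ => (stab_ur (hV v)).mono (Rts_le v u)) 1 ?_
  intro v a b ha hb hab
  have hbot : Es G v a ⊓ Es G v b = ⊥ → ∀ F : Finset G, (∀ g ∈ F, g ∈ Es G v a ∧ g ∈ Es G v b) → F.card ≤ 1 := by
    intro h F hF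
    rw [Finset.card_le_one]
    have h7 : ∀ g ∈ F, g = 1 := fun g hg => by
      have h8 : g ∈ Es G v a ⊓ Es G v b := hF g hg
      rwa [h, Subgroup.mem_bot] at h8
    intro x hx y hy
    rw [h7 x hx, h7 y hy]
  by_cases hia : Infinite (Es G v a)
  · by_cases hib : Infinite (Es G v b)
    · rcases hint v a b ha hb hab with h | h | h
      · exact Or.inl ⟨hia, hib, Or.inl h⟩
      · exact Or.inl ⟨hia, hib, Or.inr h⟩
      · exact Or.inr (hbot h)
    · refine Or.inr (hbot ?_)
      rw [htriv v b hib, inf_bot_eq]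
  · refine Or.inr (hbot ?_)
    rw [htriv v a hia, bot_inf_eq]

/-- groups which act without inversions with torsion-free stabilizers -/
theorem tree_tf (hT : T.IsTree) (hact : ∀ (g : G) (u v : V), T.Adj u v → T.Adj (g • u) (g • v))
    (hinv : ∀ (g : G) (u v : V), T.Adj u v → ¬ (g • u = v ∧ g • v = u))
    (hV : ∀ v : V, ∀ g : G, g • v = v → IsOfFinOrder g → g = 1) (g : G) (hg : IsOfFinOrder g) : g = 1 := by
  by_contra hne
  have hTA : TreeAct G T := ⟨hT, hact, hinv⟩
  have hfix : ∀ v : V, g • v ≠ v := fun v hv => hne (hV v g hv hg)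
  obtain ⟨L, l, hax⟩ := hTA.exists_axis hfix
  rw [isOfFinOrder_iff_pow_eq_one] at hg
  obtain ⟨m, hm, hgm⟩ := hg
  have h1 := hax.smul_zpow (m : ℤ) 0
  rw [zpow_natCast, hgm, one_smul] at h1
  have h2 := hax.line.injective hT h1
  have h3 := hax.pos
  have h4 : (m : ℤ) * (l : ℤ) = 0 := by omega
  rcases mul_eq_zero.1 h4 with h5 | h5 <;> omega

theorem cyc_nil {G : Type} [Group G] (h : IsCyclic G) : Group.IsNilpotent G := by
  obtain ⟨g, hg⟩ := h.exists_generator
  refine ⟨1, ?_⟩
  rw [Subgroup.upperCentralSeries_one, eq_top_iff]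
  intro x _
  rw [Subgroup.mem_center_iff]
  intro y
  obtain ⟨i, rfl⟩ := hg x
  obtain ⟨j, rfl⟩ := hg y
  exact (Commute.zpow_zpow_self g j i).eq

/-- principal congruence subgroups -/
theorem cong_ker (hL : ∀ m : ℕ, C (Matrix.GeneralLinearGroup (Fin m) ℚ)) (l : ℕ) (hl : l.Prime)
    (h3 : 3 ≤ l) (n : ℕ) :
    Cong C (Matrix.GeneralLinearGroup.map (n := Fin n) (Int.castRingHom (ZMod l))).ker := by
  refine ⟨ℤ, ℚ, inferInstance, inferInstance, Int.castRingHom ℚ, l, n, Subgroup.subtype _,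
    Int.cast_injective, hl, h3, ⟨?_, ?_⟩, Subgroup.subtype_injective _, ?_, hL⟩
  · intro a ha
    rcases mul_eq_zero.1 ha with h | h
    · have : (l : ℤ) ≠ 0 := by exact_mod_cast hl.ne_zero
      exact absurd h this
    · exact h
  · intro a ha
    by_contra hne
    obtain ⟨b, hb⟩ := ha a.natAbs
    have hb0 : b ≠ 0 := by
      rintro rfl
      exact hne (by rw [hb, mul_zero])
    have h4 : a.natAbs = l ^ a.natAbs * b.natAbs := by
      conv_lhs => rw [hb]
      rw [Int.natAbs_mul, Int.natAbs_natCast]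
    have h5 : a.natAbs < l ^ a.natAbs := Nat.lt_pow_self hl.one_lt
    have h6 : 1 ≤ b.natAbs := Int.natAbs_pos.2 hb0
    have h7 : l ^ a.natAbs * 1 ≤ l ^ a.natAbs * b.natAbs := Nat.mul_le_mul_left _ h6
    omega
  · rintro ⟨a, ha⟩
    have h1 : ∀ i j, ∃ c : ℤ, (a : Matrix (Fin n) (Fin n) ℤ) i j - (1 : Matrix (Fin n) (Fin n) ℤ) i j = l * c := by
      intro i j
      have h2 : ((((a : Matrix (Fin n) (Fin n) ℤ) i j - (1 : Matrix (Fin n) (Fin n) ℤ) i j : ℤ)) : ZMod l) = 0 := by
        rw [MonoidHom.mem_ker] at ha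
        have h3 := congrArg (fun x : Matrix.GeneralLinearGroup (Fin n) (ZMod l) =>
          (x : Matrix (Fin n) (Fin n) (ZMod l)) i j) ha
        have h4 : (((a : Matrix (Fin n) (Fin n) ℤ) i j : ℤ) : ZMod l) = (1 : Matrix (Fin n) (Fin n) (ZMod l)) i j := by
          simpa using h3
        rw [Int.cast_sub, h4]
        by_cases hij : i = j
        · subst hij
          simp
        · simp [Matrix.one_apply_ne hij]
      rw [ZMod.intCast_zmod_eq_zero_iff_dvd] at h2
      exact h2
    choose c hc using h1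
    refine ⟨Matrix.of c, ?_⟩
    ext i j
    have h5 : ((l : Matrix (Fin n) (Fin n) ℤ) * Matrix.of c) i j = l * c i j := by
      rw [← nsmul_eq_mul]
      simp
    rw [Matrix.add_apply, h5]
    have h6 := hc i j
    have h7 : (((⟨a, ha⟩ : (Matrix.GeneralLinearGroup.map (n := Fin n) (Int.castRingHom (ZMod l))).ker) :
      Matrix.GeneralLinearGroup (Fin n) ℤ) : Matrix (Fin n) (Fin n) ℤ) i j = (a : Matrix (Fin n) (Fin n) ℤ) i j := rfl
    show (a : Matrix (Fin n) (Fin n) ℤ) i j = _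
    linarith

end Pool.Agent.U74.LQ
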