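import Mathlib

/-!
# Unique roots in congruence subgroups
-/

set_option autoImplicit false

namespace Pool.Agent.U74.LQ

variable {A : Type} [Ring A]

/-- `y ^ p - x ^ p` as a function of `y - x` -/
def tel (x y : A) : ℕ → A → A
  | 0, _ => 0
  | p + 1, D => y ^ p * D + tel x y p D * x

theorem tel_sub (x y : A) (p : ℕ) : tel x y p (y - x) = y ^ p - x ^ p := by
  induction p with
  | zero => simp [tel]
  | succ p ih =>
    rw [tel, ih, pow_succ, pow_succ]
    noncomm_ring

theorem tel_mul (x y : A) (c : ℕ) (p : ℕ) (D : A) : tel x y p ((c : A) * D) = (c : A) * tel x y p D := by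
  induction p with
  | zero => simp [tel]
  | succ p ih =>
    rw [tel, tel, ih, mul_add, ← mul_assoc, ← (Nat.cast_commute c (y ^ p)).eq, mul_assoc, mul_assoc]

/-- `y ^ p` modulo `l ^ 2` -/
theorem pow_mod (l : ℕ) (Y : A) (p : ℕ) :
    ∃ Z : A, (1 + (l : A) * Y) ^ p = 1 + (l : A) * ((p : A) * Y) + (l : A) * ((l : A) * Z) := by
  induction p with
  | zero => exact ⟨0, by simp⟩
  | succ p ih =>
    obtain ⟨Z, hZ⟩ := ih
    refine ⟨(p : A) * (Y * Y) + Z + (l : A) * (Z * Y), ?_⟩
    have hl : ∀ a : A, a * (l : A) = (l : A) * a := fun a => (Nat.cast_commute l a).eq.symm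
    have hp : ∀ a : A, a * (p : A) = (p : A) * a := fun a => (Nat.cast_commute p a).eq.symm
    rw [pow_succ, hZ, Nat.cast_succ]
    simp only [mul_add, add_mul, mul_one, one_mul]
    have e1 : (l : A) * ((p : A) * Y) * ((l : A) * Y) = (l : A) * ((l : A) * ((p : A) * (Y * Y))) := by
      rw [← mul_assoc ((l : A) * ((p : A) * Y)) (l : A) Y, hl]
      simp only [mul_assoc]
    have e2 : (l : A) * ((l : A) * Z) * ((l : A) * Y) = (l : A) * ((l : A) * ((l : A) * (Z * Y))) := by
      rw [← mul_assoc ((l : A) * ((l : A) * Z)) (l : A) Y, hl]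
      simp only [mul_assoc]
    rw [e1, e2]
    abel

theorem tel_mod (l : ℕ) (X Y : A) (p : ℕ) (D : A) :
    ∃ Z : A, tel (1 + (l : A) * X) (1 + (l : A) * Y) p D =
      (p : A) * D + (l : A) * ((p.choose 2 : ℕ) * (Y * D + D * X)) + (l : A) * ((l : A) * Z) := by
  induction p with
  | zero => exact ⟨0, by simp [tel]⟩
  | succ p ih =>
    obtain ⟨Z, hZ⟩ := ih
    obtain ⟨W, hW⟩ := pow_mod l Y p
    have hl : ∀ a : A, a * (l : A) = (l : A) * a := fun a => (Nat.cast_commute l a).eq.symm
    have hch : ((p + 1).choose 2 : ℕ) = p.choose 2 + p := by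
      rw [Nat.choose_succ_succ' p 1, Nat.choose_one_right, add_comm]
    refine ⟨W * D + Z + ((p.choose 2 : ℕ) * (Y * D + D * X)) * X + (l : A) * (Z * X), ?_⟩
    rw [tel, hZ, hW, hch, Nat.cast_succ, Nat.cast_add]
    have e1 : ((p : A) * D) * ((l : A) * X) = (l : A) * ((p : A) * (D * X)) := by
      rw [← mul_assoc, hl]
      simp only [mul_assoc]
    have e2 : ((l : A) * (((p.choose 2 : ℕ) : A) * (Y * D + D * X))) * ((l : A) * X) =
        (l : A) * ((l : A) * ((((p.choose 2 : ℕ) : A) * (Y * D + D * X)) * X)) := by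
      rw [← mul_assoc, hl]
      simp only [mul_assoc]
    have e3 : ((l : A) * ((l : A) * Z)) * ((l : A) * X) = (l : A) * ((l : A) * ((l : A) * (Z * X))) := by
      rw [← mul_assoc, hl]
      simp only [mul_assoc]
    have e4 : (1 + (l : A) * ((p : A) * Y) + (l : A) * ((l : A) * W)) * D =
        D + (l : A) * ((p : A) * (Y * D)) + (l : A) * ((l : A) * (W * D)) := by
      simp only [add_mul, one_mul, mul_assoc]
    have e5 : ((p : A) * D + (l : A) * (((p.choose 2 : ℕ) : A) * (Y * D + D * X)) +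
        (l : A) * ((l : A) * Z)) * (1 + (l : A) * X) =
        (p : A) * D + (l : A) * (((p.choose 2 : ℕ) : A) * (Y * D + D * X)) + (l : A) * ((l : A) * Z) +
        ((l : A) * ((p : A) * (D * X)) + (l : A) * ((l : A) * ((((p.choose 2 : ℕ) : A) * (Y * D + D * X)) * X))
          + (l : A) * ((l : A) * ((l : A) * (Z * X)))) := by
      rw [mul_add, mul_one, add_mul, add_mul, e1, e2, e3]
    rw [e4, e5]
    have e6 : ((p.choose 2 : ℕ) + (p : A)) * (Y * D + D * X) =
        ((p.choose 2 : ℕ) : A) * (Y * D + D * X) + ((p : A) * (Y * D) + (p : A) * (D * X)) := by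
      rw [add_mul, ← mul_add (p : A)]
    have e7 : ((p : A) + 1) * D = (p : A) * D + D := by
      rw [add_mul, one_mul]
    rw [e6, e7]
    simp only [mul_add]
    abel

/-- `l` is not a zero divisor, and no element is divisible by all powers of `l` -/
structure Sepd (A : Type) [Ring A] (l : ℕ) : Prop where
  reg : ∀ a : A, (l : A) * a = 0 → a = 0
  sep : ∀ a : A, (∀ j : ℕ, ∃ b : A, a = ((l ^ j : ℕ) : A) * b) → a = 0

theorem Sepd.pow {l : ℕ} (h : Sepd A l) (j : ℕ) (a : A) (ha : ((l ^ j : ℕ) : A) * a = 0) : a = 0 := by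
  induction j with
  | zero =>
    rw [pow_zero, Nat.cast_one, one_mul] at ha
    exact ha
  | succ j ih =>
    rw [pow_succ', Nat.cast_mul, mul_assoc] at ha
    exact ih (h.reg _ ha)

theorem prime_roots {l : ℕ} (hl : l.Prime) (h3 : 3 ≤ l) (h : Sepd A l) {p : ℕ} (hp : p.Prime) (X Y : A)
    (hxy : (1 + (l : A) * X) ^ p = (1 + (l : A) * Y) ^ p) :
    1 + (l : A) * X = 1 + (l : A) * Y := by
  rw [eq_comm, ← sub_eq_zero]
  refine h.sep _ fun j => ?_
  induction j with
  | zero => exact ⟨_, by rw [pow_zero, Nat.cast_one, one_mul]⟩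
  | succ j ih =>
    obtain ⟨D, hD⟩ := ih
    have h1 : tel (1 + (l : A) * X) (1 + (l : A) * Y) p D = 0 := by
      apply h.pow j
      rw [← tel_mul, ← hD, tel_sub, hxy, sub_self]
    obtain ⟨Z, hZ⟩ := tel_mod l X Y p D
    rw [hZ] at h1
    have key : ∃ D' : A, D = (l : A) * D' := by
      by_cases hpl : p = l
      · subst hpl
        obtain ⟨m, hm⟩ : p ∣ p.choose 2 := hp.dvd_choose_self (by norm_num) (by omega)
        refine ⟨-((m : A) * (Y * D + D * X) + Z), ?_⟩
        have h2 : (p : A) * (D + (p : A) * ((m : A) * (Y * D + D * X) + Z)) = 0 := by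
          rw [← h1, hm, Nat.cast_mul]
          simp only [mul_add, mul_assoc]
          abel
        have h4 := h.reg _ h2
        rw [mul_neg]
        exact eq_neg_of_add_eq_zero_left h4
      · have hco : Nat.Coprime p l := (Nat.coprime_primes hp hl).2 hpl
        have hb := Nat.gcd_eq_gcd_ab p l
        rw [hco] at hb
        refine ⟨((p.gcdB l : ℤ) : A) * D - ((p.gcdA l : ℤ) : A) *
          ((p.choose 2 : ℕ) * (Y * D + D * X) + (l : A) * Z), ?_⟩
        have h2 : (p : A) * D = - ((l : A) * (((p.choose 2 : ℕ) : A) * (Y * D + D * X) + (l : A) * Z)) := by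
          rw [eq_neg_iff_add_eq_zero, mul_add, ← add_assoc]
          exact h1
        have h5 : (1 : A) = (p : A) * ((p.gcdA l : ℤ) : A) + (l : A) * ((p.gcdB l : ℤ) : A) := by
          have := congrArg (Int.cast : ℤ → A) hb
          push_cast at this
          exact this
        have hc1 : (p : A) * ((p.gcdA l : ℤ) : A) = ((p.gcdA l : ℤ) : A) * (p : A) := (Nat.cast_commute p _).eq
        have hc2 : ((p.gcdA l : ℤ) : A) * (l : A) = (l : A) * ((p.gcdA l : ℤ) : A) := (Nat.cast_commute l _).eq.symm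
        calc D = ((p : A) * ((p.gcdA l : ℤ) : A) + (l : A) * ((p.gcdB l : ℤ) : A)) * D := by
              rw [← h5, one_mul]
          _ = ((p.gcdA l : ℤ) : A) * ((p : A) * D) + (l : A) * (((p.gcdB l : ℤ) : A) * D) := by
              rw [add_mul, hc1, mul_assoc, mul_assoc]
          _ = _ := by
              rw [h2, mul_sub, mul_neg, ← mul_assoc ((p.gcdA l : ℤ) : A), hc2, mul_assoc (l : A)]
              abel
    obtain ⟨D', hD'⟩ := key
    refine ⟨D', ?_⟩
    rw [hD, hD', pow_succ, Nat.cast_mul, mul_assoc]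

/-- **unique roots** -/
theorem roots {l : ℕ} (hl : l.Prime) (h3 : 3 ≤ l) (h : Sepd A l) (m : ℕ) (hm : m ≠ 0) : ∀ (X Y : A)
    (_ : (1 + (l : A) * X) ^ m = (1 + (l : A) * Y) ^ m), 1 + (l : A) * X = 1 + (l : A) * Y := by
  induction m using Nat.recOnMul with
  | zero => exact absurd rfl hm
  | one =>
    intro X Y hxy
    rwa [pow_one, pow_one] at hxy
  | prime p hp =>
    intro X Y hxy
    exact prime_roots hl h3 h hp X Y hxy
  | mul a b iha ihb =>
    intro X Y hxy
    have ha : a ≠ 0 := fun h0 => hm (by rw [h0, zero_mul])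
    have hb : b ≠ 0 := fun h0 => hm (by rw [h0, mul_zero])
    rw [pow_mul, pow_mul] at hxy
    obtain ⟨Z, hZ⟩ := pow_mod l X a
    obtain ⟨W, hW⟩ := pow_mod l Y a
    have hZ' : (1 + (l : A) * X) ^ a = 1 + (l : A) * ((a : A) * X + (l : A) * Z) := by
      rw [hZ, mul_add, add_assoc]
    have hW' : (1 + (l : A) * Y) ^ a = 1 + (l : A) * ((a : A) * Y + (l : A) * W) := by
      rw [hW, mul_add, add_assoc]
    apply iha ha
    rw [hZ', hW'] at hxy ⊢
    exact ihb hb _ _ hxy

/-- matrices -/
theorem sepd_matrix {R : Type} [CommRing R] {l : ℕ} (n : ℕ) (h : Sepd R l) :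
    Sepd (Matrix (Fin n) (Fin n) R) l where
  reg a ha := by
    ext i j
    apply h.reg
    have := congrFun (congrFun ha i) j
    rw [← nsmul_eq_mul] at this
    simpa using this
  sep a ha := by
    ext i j
    apply h.sep
    intro k
    obtain ⟨b, hb⟩ := ha k
    refine ⟨b i j, ?_⟩
    rw [hb, ← nsmul_eq_mul]
    simp

end Pool.Agent.U74.LQ
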