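import Pool.Agent.U74.LQ.Quot
import Pool.Agent.U74.LQ.Roots
import Pool.Agent.U385.FJ.Iso

/-!
# Linear vertex groups
-/

set_option autoImplicit false

namespace Pool.Agent.U74.LQ

open Subgroup
open Subgroup.Commensurable (commensurator)
open Pool.Agent.Y110.FJ
open Pool.Agent.N509.TX (AcylF)
open Pool.Agent.N431.CE (Es mem_Es Es_comm Es_smul)
open Pool.Agent.U385.FJ
open Pool.Agent.R941.FJ (C_equiv C_le C_cyc)

variable {C : ∀ (G : Type) [Group G], Prop}

/-- `A` is isomorphic to a linear group over a field whose general linear groups are in the class -/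
def Lin (C : ∀ (G : Type) [Group G], Prop) (A : Type) [Group A] : Prop :=
  ∃ (F : Type) (_ : Field F) (n : ℕ) (ρ : A →* Matrix.GeneralLinearGroup (Fin n) F),
    Function.Injective ρ ∧ ∀ m : ℕ, C (Matrix.GeneralLinearGroup (Fin m) F)

/-- `A` is isomorphic to a group of matrices which are congruent to `1` modulo a prime `l ≥ 3`, over
a subring of a field whose general linear groups are in the class -/
def Cong (C : ∀ (G : Type) [Group G], Prop) (A : Type) [Group A] : Prop :=
  ∃ (R F : Type) (_ : CommRing R) (_ : Field F) (φ : R →+* F) (l n : ℕ)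
    (ρ : A →* Matrix.GeneralLinearGroup (Fin n) R),
    Function.Injective φ ∧ l.Prime ∧ 3 ≤ l ∧ Sepd R l ∧ Function.Injective ρ ∧
    (∀ a : A, ∃ X : Matrix (Fin n) (Fin n) R,
      (ρ a : Matrix (Fin n) (Fin n) R) = 1 + (l : Matrix (Fin n) (Fin n) R) * X) ∧
    ∀ m : ℕ, C (Matrix.GeneralLinearGroup (Fin m) F)

/-- groups of matrices over `R` are linear over `F` -/
theorem map_inj {R F : Type} [CommRing R] [Field F] (φ : R →+* F) (hφ : Function.Injective φ) (n : ℕ) :
    Function.Injective (Matrix.GeneralLinearGroup.map (n := Fin n) φ) := by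
  intro a b hab
  apply Units.ext
  ext i j
  apply hφ
  have h1 := congrArg (fun x : Matrix.GeneralLinearGroup (Fin n) F => (x : Matrix (Fin n) (Fin n) F) i j) hab
  simpa using h1

theorem Cong.lin {A : Type} [Group A] (h : Cong C A) : Lin C A := by
  obtain ⟨R, F, _, _, φ, l, n, ρ, hφ, -, -, -, hρ, -, hF⟩ := h
  exact ⟨F, inferInstance, n, (Matrix.GeneralLinearGroup.map φ).comp ρ, (map_inj φ hφ n).comp hρ, hF⟩

/-- congruence subgroups have unique roots -/
theorem Cong.roots {A : Type} [Group A] (h : Cong C A) (x y : A) (m : ℕ) (hm : m ≠ 0)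
    (hxy : x ^ m = y ^ m) : x = y := by
  obtain ⟨R, F, _, _, φ, l, n, ρ, -, hl, h3, hR, hρ, hc, -⟩ := h
  apply hρ
  apply Units.ext
  obtain ⟨X, hX⟩ := hc x
  obtain ⟨Y, hY⟩ := hc y
  rw [hX, hY]
  apply LQ.roots hl h3 (sepd_matrix n hR) m hm
  rw [← hX, ← hY, ← Units.val_pow_eq_pow_val, ← Units.val_pow_eq_pow_val, ← map_pow, ← map_pow, hxy]

theorem Lin.mem (hC : ClosedE C) {A : Type} [Group A] (h : Lin C A) : C A := by
  obtain ⟨F, _, n, ρ, hρ, hF⟩ := h
  exact hC.base.of_injective _ _ ρ hρ (hF n)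

/-- quotients by solvable normal subgroups -/
theorem Lin.quot (hC : ClosedE C) (hM : ∀ (G : Type) [Group G], derivedSeries G 2 = ⊥ → C G)
    {A : Type} [Group A] (h : Lin C A) {G : Type} [Group G] (N : Subgroup G) (K : Subgroup G)
    (f : N →* A) (hf : Function.Injective f) (hK : Group.IsSolvable K)
    (hn : ∀ g ∈ N, ∀ x ∈ K, g * x * g⁻¹ ∈ K) : QC C N K := by
  obtain ⟨F, _, n, ρ, hρ, hF⟩ := h
  have hnorm : (K.subgroupOf N).Normal := by
    refine ⟨fun x hx g => ?_⟩
    exact hn g g.2 x hx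
  have hs : Group.IsSolvable (K.subgroupOf N) := by
    let j : K.subgroupOf N →* K := (N.subtype.comp (K.subgroupOf N).subtype).codRestrict K fun x => x.2
    have hj : Function.Injective j := by
      intro x y hxy
      exact Subtype.ext (Subtype.ext (congrArg (fun z : K => (z : G)) hxy))
    exact Group.isSolvable_of_isSolvable_injective hj
  obtain ⟨d, hd⟩ := hs.solvable
  refine ⟨N ⧸ K.subgroupOf N, _, QuotientGroup.mk' _, lin_solv hC hM hF d n N (ρ.comp f) (hρ.comp hf) _
    hnorm (by rw [hd, Subgroup.map_bot]), fun x => ?_⟩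
  rw [QuotientGroup.mk'_apply, QuotientGroup.eq_one_iff]
  exact Iff.rfl

variable {G V : Type} [Group G] [MulAction G V] {T : SimpleGraph V}

/-- groups generated by the roots of elements of nilpotent edge groups are nilpotent -/
theorem rts_solv {v u : V} (hN : Group.IsNilpotent (Es G v u)) (hU : UR (closure (Rts G v u))) :
    Group.IsSolvable (closure (Rts G v u)) := by
  obtain ⟨c, hc⟩ : ∃ c, Zs (Es G v u) c = Es G v u := by
    obtain ⟨c, hc⟩ := hN.nilpotent
    exact ⟨c, by rw [Zs, hc, ← MonoidHom.range_eq_map, Subgroup.range_subtype]⟩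
  have h1 : Zs (closure (Rts G v u)) c = closure (Rts G v u) :=
    Zs_top hU (Es_le_Rts v u) (Rts_Dn v u) hc
  have h2 : Group.IsNilpotent (closure (Rts G v u)) := by
    refine ⟨c, ?_⟩
    rw [eq_top_iff]
    rintro ⟨x, hx⟩ -
    rw [← mem_Zs hx, h1]
    exact hx
  exact inferInstance

theorem lin_main (hC : ClosedE C) (hM : ∀ (G : Type) [Group G], derivedSeries G 2 = ⊥ → C G)
    (hA : AcylF C) (hT : T.IsTree) (hact : ∀ (g : G) (u v : V), T.Adj u v → T.Adj (g • u) (g • v))
    (hV : ∀ v : V, Lin C (MulAction.stabilizer G v))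
    (hN : ∀ v u : V, T.Adj v u → Infinite (Es G v u) → Group.IsNilpotent (Es G v u))
    (hU : ∀ v u : V, T.Adj v u → Infinite (Es G v u) → UR (closure (Rts G v u)))
    (n : ℕ) (hint : ∀ v a b, T.Adj v a → T.Adj v b → a ≠ b →
      (Infinite (Es G v a) ∧ Infinite (Es G v b) ∧
        (Commensurable (Es G v a) (Es G v b) ∨ IsCyclic (Es G v a) ∧ IsCyclic (Es G v b))) ∨
      ∀ F : Finset G, (∀ g ∈ F, g ∈ Es G v a ∧ g ∈ Es G v b) → F.card ≤ n) : C G := by
  refine iso_main hC hM hA hT hact (fun v => Or.inr ⟨(hV v).mem hC, fun u hvu hinf => ?_⟩) n hN hint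
  have hUR := hU v u hvu hinf
  refine ⟨hUR, ?_⟩
  refine (hV v).quot hC hM _ _ (Subgroup.inclusion inf_le_left) (Subgroup.inclusion_injective _)
    (rts_solv (hN v u hvu hinf) hUR) ?_
  rintro g ⟨hgv, hgc⟩ x hx
  have hgc : g ∈ commensurator (Es G v u) := hgc
  have hgv : g • v = v := hgv
  rw [Commensurable.commensurator_mem_iff, ← Es_smul, hgv] at hgc
  have h1 := (cl_smul (g := g) (v := v) (u := u)).1 hx
  have htf : TF (Es G v u) := (hUR.mono (Es_le_Rts v u)).tf
  have htf' : TF (Es G v (g • u)) := by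
    have h2 : Es G v (g • u) = Es G (g • v) (g • u) := by rw [hgv]
    rw [h2, Es_smul]
    rintro y hy m hm hym
    rw [Subgroup.mem_pointwise_smul_iff_inv_smul_mem] at hy
    have h3 := htf _ hy m hm (by
      rw [← smul_pow', hym]
      simp)
    rw [inv_smul_eq_iff, smul_one] at h3
    exact h3
  rwa [hgv, Rts_eq htf' htf hgc] at h1

end Pool.Agent.U74.LQ
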