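import Pool.Agent.U74.BC.Lin

/-!
# Quotients of linear groups by solvable normal subgroups
-/

set_option autoImplicit false

namespace Pool.Agent.U74.LQ

open Subgroup
open scoped commutatorElement
open Pool.Agent.Y110.FJ
open Pool.Agent.R941.FJ (C_equiv C_le C_cyc)
open Pool.Agent.U74.BC (C_gl C_ab)

variable {C : ∀ (G : Type) [Group G], Prop}

/-- extensions with an abelian kernel -/
theorem ext_ab (hC : ClosedE C) (hM : ∀ (G : Type) [Group G], derivedSeries G 2 = ⊥ → C G)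
    {G Q : Type} [Group G] [Group Q] (φ : G →* Q) (hQ : C Q)
    (hab : ∀ x y : G, φ x = 1 → φ y = 1 → x * y = y * x) : C G := by
  have hab' : ∀ x ∈ φ.ker, ∀ y ∈ φ.ker, x * y = y * x := fun x hx y hy => hab x y hx hy
  refine Pool.Agent.Y529.FJ.t_ext C hC _ φ.ker (C_ab hM _ hab') ?_ fun g _ => ?_
  · exact hC.base.of_injective _ _ (QuotientGroup.kerLift φ) (QuotientGroup.kerLift_injective φ) hQ
  · obtain ⟨K, hK⟩ : ∃ K : Subgroup G, K = φ.ker ⊔ Subgroup.zpowers g := ⟨_, rfl⟩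
    rw [← hK]
    refine hM K (Pool.Agent.N509.TK.metab (φ.ker.subgroupOf K) ?_ ?_)
    · rintro ⟨x, hx⟩ hx' ⟨y, hy⟩ hy'
      exact Subtype.ext (hab x y hx' hy')
    · rintro ⟨x, hx⟩ ⟨y, hy⟩
      rw [Subgroup.mem_subgroupOf]
      show φ (x * y * x⁻¹ * y⁻¹) = 1
      have hx1 : ∃ i : ℤ, φ x = φ g ^ i := by
        rw [hK, Pool.Agent.R941.FJ.mem_sup_normal] at hx
        obtain ⟨a, ha, b, ⟨k, hb⟩, rfl⟩ := hx
        have hb1 : g ^ k = b := hb
        refine ⟨k, ?_⟩
        rw [map_mul, (ha : φ a = 1), one_mul, ← hb1, map_zpow]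
      have hy1 : ∃ i : ℤ, φ y = φ g ^ i := by
        rw [hK, Pool.Agent.R941.FJ.mem_sup_normal] at hy
        obtain ⟨a, ha, b, ⟨k, hb⟩, rfl⟩ := hy
        have hb1 : g ^ k = b := hb
        refine ⟨k, ?_⟩
        rw [map_mul, (ha : φ a = 1), one_mul, ← hb1, map_zpow]
      obtain ⟨i, hi⟩ := hx1
      obtain ⟨j, hj⟩ := hy1
      rw [map_mul, map_mul, map_mul, map_inv, map_inv, hi, hj, ← zpow_add, add_comm, zpow_add,
        mul_inv_cancel_right, mul_inv_cancel]

variable {F : Type} [Field F]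

/-- a normal abelian subgroup is in an abelian kernel of a linear representation -/
theorem ab_rep {n : ℕ} {N : Type} [Group N] (ρ : N →* Matrix.GeneralLinearGroup (Fin n) F)
    (hρ : Function.Injective ρ) (A : Subgroup N) (hA : A.Normal)
    (hab : ∀ x ∈ A, ∀ y ∈ A, x * y = y * x) :
    ∃ (m : ℕ) (σ : N →* Matrix.GeneralLinearGroup (Fin m) F), (∀ a ∈ A, σ a = 1) ∧
      ∀ x y : N, σ x = 1 → σ y = 1 → x * y = y * x := by
  obtain ⟨E, hE⟩ : ∃ E : Subalgebra F (Matrix (Fin n) (Fin n) F),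
      E = Subalgebra.centralizer F {x | ∃ a ∈ A, x = (ρ a : Matrix (Fin n) (Fin n) F)} := ⟨_, rfl⟩
  have hmE : ∀ x, x ∈ E ↔ ∀ a ∈ A, (ρ a : Matrix (Fin n) (Fin n) F) * x = x * ρ a := by
    intro x
    rw [hE, Subalgebra.mem_centralizer_iff]
    constructor
    · intro h a ha
      exact h _ ⟨a, ha, rfl⟩
    · rintro h _ ⟨a, ha, rfl⟩
      exact h a ha
  have hρinv : ∀ g : N, (ρ g : Matrix (Fin n) (Fin n) F) * ((ρ g)⁻¹ : (Matrix (Fin n) (Fin n) F)ˣ) = 1 :=
    fun g => Units.mul_inv _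
  have hconj : ∀ (g : N) (x : Matrix (Fin n) (Fin n) F), x ∈ E →
      (ρ g : Matrix (Fin n) (Fin n) F) * x * ((ρ g)⁻¹ : (Matrix (Fin n) (Fin n) F)ˣ) ∈ E := by
    intro g x hx
    rw [hmE] at hx ⊢
    intro a ha
    have h1 := hx (g⁻¹ * a * g) (by
      have := hA.conj_mem a ha g⁻¹
      rwa [inv_inv] at this)
    have h2 : (ρ (g⁻¹ * a * g) : Matrix (Fin n) (Fin n) F) =
        ((ρ g)⁻¹ : (Matrix (Fin n) (Fin n) F)ˣ) * ρ a * ρ g := by
      rw [map_mul, map_mul, map_inv, Units.val_mul, Units.val_mul]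
    rw [h2] at h1
    have h3 := congrArg (fun m => (ρ g : Matrix (Fin n) (Fin n) F) * m *
      ((ρ g)⁻¹ : (Matrix (Fin n) (Fin n) F)ˣ)) h1
    simp only [mul_assoc, Units.mul_inv_cancel_left, Units.mul_inv, mul_one] at h3
    simp only [mul_assoc]
    exact h3
  let act : N → E →ₗ[F] E := fun g =>
    { toFun := fun x => ⟨_, hconj g x x.2⟩
      map_add' := fun x y => Subtype.ext (by simp [mul_add, add_mul])
      map_smul' := fun c x => Subtype.ext (by simp) }
  have hact : ∀ (g : N) (x : E), ((act g x : E) : Matrix (Fin n) (Fin n) F) =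
    (ρ g : Matrix (Fin n) (Fin n) F) * x * ((ρ g)⁻¹ : (Matrix (Fin n) (Fin n) F)ˣ) := fun _ _ => rfl
  have hmul : ∀ (g h : N) (x : E), act (g * h) x = act g (act h x) := by
    intro g h x
    apply Subtype.ext
    rw [hact, hact, hact, map_mul, mul_inv_rev, Units.val_mul, Units.val_mul]
    simp only [mul_assoc]
  have hone : ∀ x : E, act 1 x = x := by
    intro x
    apply Subtype.ext
    rw [hact, map_one, inv_one, Units.val_one, one_mul, mul_one]
  let θ : N →* (E ≃ₗ[F] E) := MonoidHom.mk' (fun g => LinearEquiv.ofLinearMap (act g) (act g⁻¹)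
      (by ext x : 1; show act g (act g⁻¹ x) = x; rw [← hmul, mul_inv_cancel, hone])
      (by ext x : 1; show act g⁻¹ (act g x) = x; rw [← hmul, inv_mul_cancel, hone])) (by
    intro g h
    ext x : 1
    exact hmul g h x)
  have hθ : ∀ (g : N) (x : E), θ g x = act g x := fun _ _ => rfl
  have hker : ∀ g : N, θ g = 1 → ∀ x ∈ E, (ρ g : Matrix (Fin n) (Fin n) F) * x = x * ρ g := by
    intro g hg x hx
    have h1 : θ g ⟨x, hx⟩ = ⟨x, hx⟩ := by rw [hg]; rfl
    rw [hθ] at h1
    have h2 := congrArg Subtype.val h1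
    rw [hact] at h2
    have h3 : (ρ g : Matrix (Fin n) (Fin n) F) * x * ((ρ g)⁻¹ : (Matrix (Fin n) (Fin n) F)ˣ) = x := h2
    have h4 := congrArg (fun m => m * (ρ g : Matrix (Fin n) (Fin n) F)) h3
    simp only [mul_assoc, Units.inv_mul, mul_one] at h4
    exact h4
  have hAE : ∀ a ∈ A, (ρ a : Matrix (Fin n) (Fin n) F) ∈ E := by
    intro a ha
    rw [hmE]
    intro b hb
    rw [← Units.val_mul, ← Units.val_mul, ← map_mul, ← map_mul, hab b hb a ha]
  have hkE : ∀ g : N, θ g = 1 → (ρ g : Matrix (Fin n) (Fin n) F) ∈ E := by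
    intro g hg
    rw [hmE]
    intro a ha
    exact (hker g hg _ (hAE a ha)).symm
  let b := Module.finBasis F E
  let e1 : Matrix.GeneralLinearGroup (Fin (Module.finrank F E)) F ≃* LinearMap.GeneralLinearGroup F E :=
    Units.mapEquiv (LinearMap.toMatrixAlgEquiv b).toMulEquiv.symm
  let e2 : LinearMap.GeneralLinearGroup F E ≃* (E ≃ₗ[F] E) :=
    LinearMap.GeneralLinearGroup.generalLinearEquiv F E
  let e : (E ≃ₗ[F] E) ≃* Matrix.GeneralLinearGroup (Fin (Module.finrank F E)) F := (e1.trans e2).symm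
  have hs : ∀ g : N, (e.toMonoidHom.comp θ) g = 1 ↔ θ g = 1 := by
    intro g
    show e (θ g) = 1 ↔ _
    rw [map_eq_one_iff e e.injective]
  refine ⟨_, e.toMonoidHom.comp θ, ?_, ?_⟩
  · intro a ha
    rw [hs]
    ext x : 1
    apply Subtype.ext
    show ((θ a x : E) : Matrix (Fin n) (Fin n) F) = x
    rw [hθ, hact, (hmE _).1 x.2 a ha, mul_assoc, Units.mul_inv, mul_one]
  · intro x y hx hy
    rw [hs] at hx hy
    apply hρ
    apply Units.ext
    rw [map_mul, map_mul, Units.val_mul, Units.val_mul]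
    exact hker x hx _ (hkE y hy)

/-- **quotients of linear groups by solvable normal subgroups** -/
theorem lin_solv (hC : ClosedE C) (hM : ∀ (G : Type) [Group G], derivedSeries G 2 = ⊥ → C G)
    (hL : ∀ n : ℕ, C (Matrix.GeneralLinearGroup (Fin n) F)) (d : ℕ) :
    ∀ (n : ℕ) (N : Type) [Group N] (ρ : N →* Matrix.GeneralLinearGroup (Fin n) F)
      (_ : Function.Injective ρ) (R : Subgroup N) (_ : R.Normal),
      (derivedSeries R d).map R.subtype = ⊥ → C (N ⧸ R) := by
  induction d with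
  | zero =>
    intro n N _ ρ hρ R hR hd
    have h1 : R = ⊥ := by
      rw [eq_bot_iff]
      intro x hx
      rw [← hd]
      exact ⟨⟨x, hx⟩, Subgroup.mem_top _, rfl⟩
    subst h1
    exact C_equiv hC.base QuotientGroup.quotientBot (hC.base.of_injective _ _ ρ hρ (hL n))
  | succ d ih =>
    intro n N _ ρ hρ R hR hd
    have hchar : ((derivedSeries R d).map R.subtype).Normal := inferInstance
    obtain ⟨m, σ, hσA, hσ⟩ := ab_rep ρ hρ _ hchar (by
      rintro _ ⟨x, hx, rfl⟩ _ ⟨y, hy, rfl⟩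
      have h1 : ⁅x, y⁆ ∈ derivedSeries R (d + 1) := Subgroup.commutator_mem_commutator hx hy
      have h2 : (⁅x, y⁆ : R).1 ∈ (derivedSeries R (d + 1)).map R.subtype := ⟨_, h1, rfl⟩
      rw [hd, Subgroup.mem_bot] at h2
      have h3 : ⁅x, y⁆ = 1 := Subtype.ext h2
      rw [commutatorElement_eq_one_iff_mul_comm] at h3
      exact congrArg Subtype.val h3)
    obtain ⟨τ, hτ⟩ : ∃ τ : N →* σ.range, τ = σ.rangeRestrict := ⟨_, rfl⟩
    have hτs : Function.Surjective τ := by
      rw [hτ]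
      exact σ.rangeRestrict_surjective
    have hτ1 : ∀ x, τ x = 1 ↔ σ x = 1 := by
      intro x
      rw [hτ]
      constructor
      · intro h
        exact congrArg Subtype.val h
      · intro h
        exact Subtype.ext h
    have hR1 : (R.map τ).Normal := hR.map τ hτs
    have h1 := ih m σ.range σ.range.subtype σ.range.subtype_injective (R.map τ) hR1 (by
      rw [eq_bot_iff]
      have h2 : derivedSeries (R.map τ) d = (derivedSeries R d).map (τ.subgroupMap R) :=
        (map_derivedSeries_eq (τ.subgroupMap_surjective R) d).symm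
      rw [h2]
      rintro _ ⟨_, ⟨x, hx, rfl⟩, rfl⟩
      have h3 : σ x = 1 := hσA x ⟨x, hx, rfl⟩
      exact (hτ1 x).2 h3)
    refine ext_ab hC hM (QuotientGroup.map R (R.map τ) τ (Subgroup.le_comap_map τ R)) h1 ?_
    have key : ∀ x : N ⧸ R, (QuotientGroup.map R (R.map τ) τ (Subgroup.le_comap_map τ R)) x = 1 →
        ∃ k : N, σ k = 1 ∧ x = QuotientGroup.mk k := by
      intro x hx
      obtain ⟨y, rfl⟩ := QuotientGroup.mk_surjective x
      have h4 : (QuotientGroup.mk (τ y) : σ.range ⧸ R.map τ) = 1 := hx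
      rw [QuotientGroup.eq_one_iff] at h4
      obtain ⟨r, hr, hry⟩ := h4
      refine ⟨y * r⁻¹, ?_, ?_⟩
      · rw [← hτ1, map_mul, map_inv, hry, mul_inv_cancel]
      · rw [QuotientGroup.eq, ← mul_assoc, inv_mul_cancel, one_mul]
        exact inv_mem hr
    intro x y hx hy
    obtain ⟨a, ha, rfl⟩ := key x hx
    obtain ⟨b, hb, rfl⟩ := key y hy
    show (QuotientGroup.mk (a * b) : N ⧸ R) = QuotientGroup.mk (b * a)
    rw [hσ a b ha hb]

end Pool.Agent.U74.LQ
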